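import Mathlib

set_option autoImplicit false

namespace Pool.Agent.H.MP_2e34cc_co

open PowerSeries

section gen
variable {K : Type} [Field K]

def poch (x q : K) (n : ℕ) : K := ∏ j ∈ Finset.range n, (1 - x * q ^ j)

noncomputable def phi (a b c q : K) : K⟦X⟧ :=
  PowerSeries.mk fun n => poch a q n * poch b q n / (poch q q n * poch c q n)

theorem poch_succ (x q : K) (n : ℕ) : poch x q (n + 1) = poch x q n * (1 - x * q ^ n) :=
  Finset.prod_range_succ _ _

theorem poch_succ' (x q : K) (n : ℕ) : poch x q (n + 1) = (1 - x) * poch (x * q) q n := by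
  unfold poch
  rw [Finset.prod_range_succ', mul_comm, pow_zero, mul_one]
  congr 1
  exact Finset.prod_congr rfl fun j _ => by ring

theorem poch_ne {x q : K} (h : ∀ k : ℕ, 1 - x * q ^ k ≠ 0) (n : ℕ) : poch x q n ≠ 0 :=
  Finset.prod_ne_zero_iff.2 fun j _ => h j

theorem shift {x q : K} (h : ∀ k : ℕ, 1 - x * q ^ k ≠ 0) (k : ℕ) : 1 - x * q * q ^ k ≠ 0 := by
  have := h (k + 1); rwa [pow_succ', ← mul_assoc] at this

theorem phi_symm (a b c q : K) : phi a b c q = phi b a c q := by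
  ext n; simp only [phi, coeff_mk, mul_comm]

theorem phi_inv (a b c q : K) : phi a b c q * (phi a b c q)⁻¹ = 1 :=
  PowerSeries.mul_inv_cancel _ (by simp [phi, poch])

theorem cont1 {x y z q : K} (hq : ∀ k : ℕ, 1 - q * q ^ k ≠ 0) (hz : ∀ k : ℕ, 1 - z * q ^ k ≠ 0) :
    phi (x * q) y (z * q) q = phi x y z q +
      X * (C ((1 - y) * (x - z) / ((1 - z) * (1 - z * q))) * phi (x * q) (y * q) (z * q * q) q) := by
  ext n
  cases n with
  | zero => simp [phi, poch]
  | succ n =>
    rw [map_add, coeff_succ_X_mul, coeff_C_mul]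
    simp only [phi, coeff_mk]
    have e : poch (z * q) q n = (1 - z * q) * poch (z * q * q) q n / (1 - z * q * q ^ n) := by
      rw [eq_div_iff (shift hz n), ← poch_succ, poch_succ']
    rw [poch_succ (x * q), poch_succ' x, poch_succ' y, poch_succ q, poch_succ' (z * q),
      poch_succ' z, e]
    have h1 := poch_ne hq n
    have h2 := poch_ne (shift (shift hz)) n
    have h3 := hq n
    have h4 := shift hz n
    have h5 := hz 0
    have h6 := shift hz 0
    rw [pow_zero, mul_one] at h5 h6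
    field_simp
    ring

theorem cont2 {x y z q : K} (hq : ∀ k : ℕ, 1 - q * q ^ k ≠ 0) (hz : ∀ k : ℕ, 1 - z * q ^ k ≠ 0) :
    phi x (y * q) z q = phi x y z q +
      X * (C (y * (1 - x) / (1 - z)) * phi (x * q) (y * q) (z * q) q) := by
  ext n
  cases n with
  | zero => simp [phi, poch]
  | succ n =>
    rw [map_add, coeff_succ_X_mul, coeff_C_mul]
    simp only [phi, coeff_mk]
    rw [poch_succ (y * q), poch_succ' x, poch_succ' y, poch_succ q, poch_succ' z]
    have h1 := poch_ne hq n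
    have h2 := poch_ne (shift hz) n
    have h3 := hq n
    have h5 := hz 0
    rw [pow_zero, mul_one] at h5
    field_simp
    ring

theorem mem1 {c q : K} (hq : ∀ k : ℕ, 1 - q * q ^ k ≠ 0) (hc : ∀ k : ℕ, 1 - c * q ^ k ≠ 0)
    (S : Subring K) (h1 : q ∈ S) (h2 : c ∈ S) (h3 : ∀ k : ℕ, (1 - c * q ^ k)⁻¹ ∈ S) (n : ℕ) :
    ∀ x ∈ S, ∀ y ∈ S, ∀ k : ℕ,
      coeff n (phi (x * q) y (c * q ^ k * q) q * (phi x y (c * q ^ k) q)⁻¹) ∈ S := by
  induction n using Nat.strong_induction_on with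
  | _ n ih =>
    intro x hx y hy k
    have hz : ∀ j : ℕ, 1 - c * q ^ k * q ^ j ≠ 0 := fun j => by
      rw [mul_assoc, ← pow_add]; exact hc _
    have ek : c * q ^ (k + 1) = c * q ^ k * q := by ring
    have e : phi (x * q) y (c * q ^ k * q) q * (phi x y (c * q ^ k) q)⁻¹ = 1 + X *
        (C ((1 - y) * (x - c * q ^ k) / ((1 - c * q ^ k) * (1 - c * q ^ k * q))) *
          ((phi (y * q) (x * q) (c * q ^ (k + 1) * q) q * (phi y (x * q) (c * q ^ (k + 1)) q)⁻¹) *
          (phi (x * q) y (c * q ^ k * q) q * (phi x y (c * q ^ k) q)⁻¹))) := by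
      have a1 := cont1 (x := x) (y := y) hq hz
      have a2 := phi_inv x y (c * q ^ k) q
      have a3 := phi_inv (x * q) y (c * q ^ k * q) q
      rw [ek, phi_symm (y * q), phi_symm y]
      generalize C ((1 - y) * (x - c * q ^ k) / ((1 - c * q ^ k) * (1 - c * q ^ k * q))) = κ at a1 ⊢
      linear_combination (phi x y (c * q ^ k) q)⁻¹ * a1 + a2 -
        X * κ * phi (x * q) (y * q) (c * q ^ k * q * q) q * (phi x y (c * q ^ k) q)⁻¹ * a3
    rw [e]
    cases n with
    | zero => simp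
    | succ n =>
      rw [map_add, coeff_succ_X_mul, coeff_C_mul, coeff_one, if_neg (by omega), zero_add, coeff_mul]
      refine S.mul_mem ?_ (S.sum_mem fun p hp => ?_)
      · rw [div_eq_mul_inv, mul_inv, ← ek]
        exact S.mul_mem (S.mul_mem (S.sub_mem S.one_mem hy)
          (S.sub_mem hx (S.mul_mem h2 (S.pow_mem h1 _)))) (S.mul_mem (h3 _) (h3 _))
      · have := Finset.HasAntidiagonal.mem_antidiagonal.1 hp
        exact S.mul_mem (ih _ (by omega) y hy _ (S.mul_mem hx h1) _) (ih _ (by omega) x hx y hy k)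

theorem mem1' {c q : K} (hq : ∀ k : ℕ, 1 - q * q ^ k ≠ 0) (hc : ∀ k : ℕ, 1 - c * q ^ k ≠ 0)
    (S : Subring K) (h1 : q ∈ S) (h2 : c ∈ S) (h3 : ∀ k : ℕ, (1 - c * q ^ k)⁻¹ ∈ S)
    (x : K) (hx : x ∈ S) (y : K) (hy : y ∈ S) (n : ℕ) :
    coeff n (phi (x * q) (y * q) (c * q) q * (phi x y c q)⁻¹) ∈ S := by
  have b0 := fun n => mem1 hq hc S h1 h2 h3 n x hx y hy 0
  have b1 := fun n => mem1 hq hc S h1 h2 h3 n _ (S.mul_mem hx h1) _ (S.mul_mem hy h1) 1
  simp only [pow_zero, mul_one, pow_one] at b0 b1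
  have e : phi (x * q) (y * q) (c * q) q * (phi x y c q)⁻¹ =
      phi (x * q) y (c * q) q * (phi x y c q)⁻¹ + X * (C (y * (1 - x * q) / (1 - c * q)) *
        ((phi (x * q * q) (y * q) (c * q * q) q * (phi (x * q) (y * q) (c * q) q)⁻¹) *
        (phi (x * q) (y * q) (c * q) q * (phi x y c q)⁻¹))) := by
    have a1 := cont2 (x := x * q) (y := y) hq (shift hc)
    have a3 := phi_inv (x * q) (y * q) (c * q) q
    generalize C (y * (1 - x * q) / (1 - c * q)) = κ at a1 ⊢
    linear_combination (phi x y c q)⁻¹ * a1 -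
      X * κ * phi (x * q * q) (y * q) (c * q * q) q * (phi x y c q)⁻¹ * a3
  induction n using Nat.strong_induction_on with
  | _ n ih =>
    rw [e, map_add]
    refine S.add_mem (b0 n) ?_
    cases n with
    | zero => simp
    | succ n =>
      rw [coeff_succ_X_mul, coeff_C_mul, coeff_mul]
      refine S.mul_mem ?_ (S.sum_mem fun p hp => ?_)
      · have := h3 1
        rw [pow_one] at this
        rw [div_eq_mul_inv]
        exact S.mul_mem (S.mul_mem hy (S.sub_mem S.one_mem (S.mul_mem hx h1))) this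
      · have := Finset.HasAntidiagonal.mem_antidiagonal.1 hp
        exact S.mul_mem (b1 _) (ih _ (by omega))

def w (c q : K) (N n : ℕ) : K := ∏ k ∈ Finset.range N, (1 - c * q ^ k) ^ (n / (k + 1))

theorem w_split {c q : K} (S : Subring K) (h1 : q ∈ S) (h2 : c ∈ S) (N i j : ℕ) (h : i ≤ N) :
    ∃ r ∈ S, w c q N (i + j) = poch c q i * w c q N j * r := by
  refine ⟨∏ k ∈ Finset.range N, (1 - c * q ^ k) ^
    ((i + j) / (k + 1) - (if k < i then 1 else 0) - j / (k + 1)), S.prod_mem fun k _ =>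
    S.pow_mem (S.sub_mem S.one_mem (S.mul_mem h2 (S.pow_mem h1 _))) _, ?_⟩
  have e : poch c q i = ∏ k ∈ Finset.range N, (1 - c * q ^ k) ^ (if k < i then 1 else 0) := by
    unfold poch
    refine Finset.prod_subset_one_on_sdiff (Finset.range_subset_range.2 h) (fun k hk => ?_)
      fun k hk => ?_
    · simp only [Finset.mem_sdiff, Finset.mem_range] at hk
      rw [if_neg hk.2, pow_zero]
    · rw [if_pos (Finset.mem_range.1 hk), pow_one]
  rw [e, w, w, ← Finset.prod_mul_distrib, ← Finset.prod_mul_distrib]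
  refine Finset.prod_congr rfl fun k _ => ?_
  rw [← pow_add, ← pow_add]
  congr 1
  have : (if k < i then 1 else 0) + j / (k + 1) ≤ (i + j) / (k + 1) := by
    split_ifs with hk
    · rw [add_comm 1, ← Nat.add_div_right _ (Nat.succ_pos k)]
      exact Nat.div_le_div_right (by omega)
    · rw [zero_add]; exact Nat.div_le_div_right (by omega)
  omega

theorem poch_mem {x q : K} (S : Subring K) (h1 : q ∈ S) (h2 : x ∈ S) (n : ℕ) : poch x q n ∈ S :=
  S.prod_mem fun _ _ => S.sub_mem S.one_mem (S.mul_mem h2 (S.pow_mem h1 _))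

theorem coef_mem {x y z q : K} (hz : ∀ k : ℕ, 1 - z * q ^ k ≠ 0) (S : Subring K) (h1 : q ∈ S)
    (hx : x ∈ S) (hy : y ∈ S) (h3 : ∀ k : ℕ, (1 - q * q ^ k)⁻¹ ∈ S) (n : ℕ) :
    coeff n (phi x y z q) * poch z q n ∈ S := by
  have : coeff n (phi x y z q) * poch z q n = poch x q n * poch y q n * (poch q q n)⁻¹ := by
    have := poch_ne hz n
    simp only [phi, coeff_mk]; field_simp
  rw [this]
  refine S.mul_mem (S.mul_mem (poch_mem S h1 hx n) (poch_mem S h1 hy n)) ?_
  rw [poch, ← Finset.prod_inv_distrib]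
  exact S.prod_mem fun k _ => h3 k

theorem mem2 {a b c q x y : K} (hc : ∀ k : ℕ, 1 - c * q ^ k ≠ 0) (S : Subring K) (h1 : q ∈ S)
    (h2 : c ∈ S) (ha : a ∈ S) (hb : b ∈ S) (hx : x ∈ S) (hy : y ∈ S)
    (h3 : ∀ k : ℕ, (1 - q * q ^ k)⁻¹ ∈ S) (n : ℕ) :
    w c q (n + 1) (n + 1) * coeff n (phi x y (c * q) q * (phi a b c q)⁻¹) / (1 - c) ∈ S := by
  have key : ∀ m, m ≤ n + 1 → w c q (n + 1) m * coeff m (phi a b c q)⁻¹ ∈ S := by
    intro m
    induction m using Nat.strong_induction_on with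
    | _ m ih =>
      intro hm
      have e := congrArg (coeff m) (phi_inv a b c q)
      have e0 : coeff 0 (phi a b c q) = 1 := by simp [phi, poch]
      rw [coeff_mul, coeff_one] at e
      cases m with
      | zero =>
        simp only [Finset.Nat.antidiagonal_zero, Finset.sum_singleton, e0, one_mul, if_true] at e
        rw [e]; simp [w]
      | succ m =>
        rw [Finset.Nat.sum_antidiagonal_succ, if_neg (by omega), e0, one_mul] at e
        rw [eq_neg_of_add_eq_zero_left e, mul_neg, Finset.mul_sum]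
        refine S.neg_mem (S.sum_mem fun p hp => ?_)
        have := Finset.HasAntidiagonal.mem_antidiagonal.1 hp
        obtain ⟨r, hr, e⟩ := w_split S h1 h2 (n + 1) (p.1 + 1) p.2 (by omega)
        rw [show m + 1 = p.1 + 1 + p.2 by omega, e]
        have := S.mul_mem (S.mul_mem (coef_mem hc S h1 ha hb h3 (p.1 + 1))
          (ih p.2 (by omega) (by omega))) hr
        refine (congrArg (· ∈ S) ?_).mp this
        ring
  rw [coeff_mul, Finset.mul_sum, Finset.sum_div]
  refine S.sum_mem fun p hp => ?_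
  have := Finset.HasAntidiagonal.mem_antidiagonal.1 hp
  obtain ⟨r, hr, e⟩ := w_split S h1 h2 (n + 1) (p.1 + 1) p.2 (by omega)
  rw [show p.1 + 1 + p.2 = n + 1 by omega, poch_succ'] at e
  have h5 := hc 0
  rw [pow_zero, mul_one] at h5
  have := S.mul_mem (S.mul_mem (coef_mem (shift hc) S h1 hx hy h3 p.1) (key p.2 (by omega))) hr
  rw [e]
  refine (congrArg (· ∈ S) ?_).mp this
  field_simp

end gen

abbrev R := MvPolynomial (Fin 4) ℤ
abbrev K := FractionRing R

def loc (M : Submonoid R) : Subring K where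
  carrier := {x | ∃ u ∈ M, ∃ p : R, algebraMap R K u * x = algebraMap R K p}
  mul_mem' := by
    rintro x y ⟨u, hu, p, hp⟩ ⟨v, hv, r, hr⟩
    exact ⟨u * v, M.mul_mem hu hv, p * r, by rw [map_mul, map_mul, ← hp, ← hr]; ring⟩
  one_mem' := ⟨1, M.one_mem, 1, by simp⟩
  add_mem' := by
    rintro x y ⟨u, hu, p, hp⟩ ⟨v, hv, r, hr⟩
    exact ⟨u * v, M.mul_mem hu hv, v * p + u * r, by
      rw [map_add, map_mul, map_mul, map_mul, ← hp, ← hr]; ring⟩
  zero_mem' := ⟨1, M.one_mem, 0, by simp⟩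
  neg_mem' := by
    rintro x ⟨u, hu, p, hp⟩
    exact ⟨u, hu, -p, by rw [map_neg, ← hp]; ring⟩

theorem poly_mem (M : Submonoid R) (p : R) : algebraMap R K p ∈ loc M :=
  ⟨1, M.one_mem, p, by simp⟩

theorem inv_mem (M : Submonoid R) (u : R) (hu : u ∈ M) (h : algebraMap R K u ≠ 0) :
    (algebraMap R K u)⁻¹ ∈ loc M := ⟨u, hu, 1, by rw [mul_inv_cancel₀ h, map_one]⟩

open MvPolynomial in
noncomputable def M1 : Submonoid R :=
  Submonoid.closure (Set.range fun k : ℕ => 1 - MvPolynomial.X 2 * MvPolynomial.X 3 ^ k)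
noncomputable def M2 : Submonoid R :=
  Submonoid.closure (Set.range fun k : ℕ => 1 - MvPolynomial.X 3 * MvPolynomial.X 3 ^ k)

theorem ne1 (i : Fin 4) (k : ℕ) : (1 - MvPolynomial.X i * MvPolynomial.X 3 ^ k : R) ≠ 0 := by
  intro h
  simpa using congrArg MvPolynomial.constantCoeff h

theorem rel (k j : ℕ) : IsRelPrime (1 - MvPolynomial.X 2 * MvPolynomial.X 3 ^ k : R)
    (1 - MvPolynomial.X 3 * MvPolynomial.X 3 ^ j) := by
  intro d h1 h2
  let e : R ≃ₐ[ℤ] Polynomial (MvPolynomial (Fin 3) ℤ) :=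
    (MvPolynomial.renameEquiv ℤ (Equiv.swap (0 : Fin 4) 2)).trans (MvPolynomial.finSuccEquiv ℤ 3)
  have e2 : e (MvPolynomial.X 2) = Polynomial.X := by
    simp only [e, AlgEquiv.trans_apply, MvPolynomial.renameEquiv_apply, MvPolynomial.rename_X,
      Equiv.swap_apply_right, MvPolynomial.finSuccEquiv_X_zero]
  have e3 : e (MvPolynomial.X 3) = Polynomial.C (MvPolynomial.X 2) := by
    simp only [e, AlgEquiv.trans_apply, MvPolynomial.renameEquiv_apply, MvPolynomial.rename_X]
    exact MvPolynomial.finSuccEquiv_X_succ (j := 2)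
  have a1 := map_dvd e h1
  have a2 := map_dvd e h2
  have n2 : e (1 - MvPolynomial.X 3 * MvPolynomial.X 3 ^ j) ≠ 0 :=
    (map_ne_zero_iff e e.injective).2 (ne1 3 j)
  have d0 := Polynomial.natDegree_le_of_dvd a2 n2
  simp only [map_sub, map_mul, map_pow, map_one, e2, e3] at a1 d0
  rw [← map_pow, ← map_mul, ← Polynomial.C_1, ← map_sub, Polynomial.natDegree_C] at d0
  have d1 := Polynomial.eq_C_of_natDegree_le_zero d0
  have a3 := map_dvd (Polynomial.evalRingHom 0) a1
  rw [d1] at a3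
  simp only [Polynomial.coe_evalRingHom, Polynomial.eval_C, Polynomial.eval_sub,
    Polynomial.eval_one, Polynomial.eval_mul, Polynomial.eval_X, zero_mul, sub_zero] at a3
  have : IsUnit (e d) := by rw [d1]; exact Polynomial.isUnit_C.2 (isUnit_of_dvd_one a3)
  simpa using this.map e.symm

theorem both (x : K) (h1 : x ∈ loc M1) (h2 : x ∈ loc M2) : ∃ P : R, x = algebraMap R K P := by
  obtain ⟨u, hu, p, hp⟩ := h1
  obtain ⟨v, hv, r, hr⟩ := h2
  have hrel : IsRelPrime u v := by
    clear hp hr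
    induction hu using Submonoid.closure_induction with
    | mem u hu =>
      obtain ⟨k, rfl⟩ := hu
      induction hv using Submonoid.closure_induction with
      | mem v hv => obtain ⟨j, rfl⟩ := hv; exact rel k j
      | one => exact isRelPrime_one_right
      | mul a b _ _ ha hb => exact ha.mul_right hb
    | one => exact isRelPrime_one_left
    | mul a b _ _ ha hb => exact ha.mul_left hb
  have hu0 : u ≠ 0 := by
    clear hp hrel
    induction hu using Submonoid.closure_induction with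
    | mem u hu => obtain ⟨k, rfl⟩ := hu; exact ne1 2 k
    | one => exact one_ne_zero
    | mul a b _ _ ha hb => exact mul_ne_zero ha hb
  have e : p * v = u * r := IsFractionRing.injective R K (by
    rw [map_mul, map_mul, ← hp, ← hr]; ring)
  obtain ⟨P, hP⟩ := hrel.dvd_of_dvd_mul_right (Dvd.intro _ e.symm)
  refine ⟨P, mul_left_cancel₀ ((map_ne_zero_iff _ (IsFractionRing.injective R K)).2 hu0) ?_⟩
  rw [hp, hP, map_mul]

noncomputable def v (i : Fin 4) : K := algebraMap R K (MvPolynomial.X i)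

theorem hv (i : Fin 4) (k : ℕ) :
    1 - v i * v 3 ^ k = algebraMap R K (1 - MvPolynomial.X i * MvPolynomial.X 3 ^ k) := by
  simp [v]

theorem hne (i : Fin 4) (k : ℕ) : 1 - v i * v 3 ^ k ≠ 0 := by
  rw [hv]; exact (map_ne_zero_iff _ (IsFractionRing.injective R K)).2 (ne1 i k)

theorem i1 (k : ℕ) : (1 - v 2 * v 3 ^ k)⁻¹ ∈ loc M1 := by
  have := hne 2 k
  rw [hv] at this ⊢
  exact inv_mem _ _ (Submonoid.subset_closure ⟨k, rfl⟩) this

theorem i2 (k : ℕ) : (1 - v 3 * v 3 ^ k)⁻¹ ∈ loc M2 := by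
  have := hne 3 k
  rw [hv] at this ⊢
  exact inv_mem _ _ (Submonoid.subset_closure ⟨k, rfl⟩) this

theorem final (x y : K) (hx : x ∈ loc M2) (hy : y ∈ loc M2) (n : ℕ)
    (h : coeff n (phi x y (v 2 * v 3) (v 3) * (phi (v 0) (v 1) (v 2) (v 3))⁻¹) ∈ loc M1) :
    ∃ P : R, w (v 2) (v 3) (n + 1) (n + 1) *
      coeff n (phi x y (v 2 * v 3) (v 3) * (phi (v 0) (v 1) (v 2) (v 3))⁻¹) / (1 - v 2) =
      algebraMap R K P := by
  refine both _ ?_ (mem2 (hne 2) _ (poly_mem _ _) (poly_mem _ _) (poly_mem _ _) (poly_mem _ _)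
    hx hy i2 n)
  have := i1 0
  rw [pow_zero, mul_one] at this
  rw [div_eq_mul_inv]
  exact Subring.mul_mem _ (Subring.mul_mem _ (Subring.prod_mem _ fun k _ => Subring.pow_mem _
    (by rw [hv]; exact poly_mem _ _) _) h) this

end Pool.Agent.H.MP_2e34cc_co
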